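import Pool.Agent.Lib.MP_b1a3a4_al.MVS.LG.Iface

/-!
# Project MVS, part IV, module VSUB: the subspaces `V(φ, w)` are closed and invariant
-/

set_option linter.all false

namespace Pool.Agent.Lib.MP_b1a3a4_al.MVS.LG.H14

open Pool.Agent.Lib.MP_b1a3a4_al.MVS.LG

variable {r : ℕ} {L : Type} [Group L]

/-- The operators. -/
abbrev Op (r : ℕ) (L : Type) : Type := L2 (Fin r × L) →L[ℝ] L2 L

/-- The action of `L` on the operators. -/
noncomputable def thA (g : L) : Op r L ≃+ Op r L where
  toFun := fun A => (lm g).comp A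
  invFun := fun A => (lm g⁻¹).comp A
  left_inv := fun A => by
    ext u : 1
    show lm g⁻¹ (lm g (A u)) = A u
    rw [← lm_mul, inv_mul_cancel, lm_one]
  right_inv := fun A => by
    ext u : 1
    show lm g (lm g⁻¹ (A u)) = A u
    rw [← lm_mul, mul_inv_cancel, lm_one]
  map_add' := fun A B => by
    ext u : 1
    show lm g ((A + B) u) = lm g (A u) + lm g (B u)
    rw [ContinuousLinearMap.add_apply, map_add]

noncomputable def th : L →* MulAut (Multiplicative (Op r L)) where
  toFun g := AddEquiv.toMultiplicative (thA g)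
  map_one' := by
    apply MulEquiv.ext
    intro A
    show Multiplicative.ofAdd ((lm (1 : L)).comp (Multiplicative.toAdd A)) = A
    have : (lm (1 : L)).comp (Multiplicative.toAdd A) = Multiplicative.toAdd A := by
      ext u : 1
      show lm (1 : L) ((Multiplicative.toAdd A) u) = _
      rw [lm_one]
    rw [this]; rfl
  map_mul' g h := by
    apply MulEquiv.ext
    intro A
    show Multiplicative.ofAdd ((lm (g * h)).comp (Multiplicative.toAdd A)) =
      Multiplicative.ofAdd ((lm g).comp ((lm h).comp (Multiplicative.toAdd A)))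
    congr 1
    ext u : 1
    show lm (g * h) ((Multiplicative.toAdd A) u) = lm g (lm h ((Multiplicative.toAdd A) u))
    rw [lm_mul]

/-- The lift. -/
noncomputable def lf (φ : FreeGroup (Fin r) →* L) :
    FreeGroup (Fin r) →* (Multiplicative (Op r L)) ⋊[th] L :=
  FreeGroup.lift (fun i => ⟨Multiplicative.ofAdd (co i), φ (FreeGroup.of i)⟩)

theorem lf_right (φ : FreeGroup (Fin r) →* L) (g : FreeGroup (Fin r)) :
    (lf φ g).right = φ g := by
  have : (SemidirectProduct.rightHom.comp (lf φ)) = φ := by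
    apply FreeGroup.ext_hom
    intro i
    simp [lf]
  exact DFunLike.congr_fun this g

/-- The derivation with given values. -/
noncomputable def E (φ : FreeGroup (Fin r) →* L) (g : FreeGroup (Fin r)) : Op r L :=
  Multiplicative.toAdd (lf φ g).left

theorem E_of (φ : FreeGroup (Fin r) →* L) (i : Fin r) : E φ (FreeGroup.of i) = co i := by
  unfold E lf
  rw [FreeGroup.lift_apply_of]
  rfl

theorem E_der (φ : FreeGroup (Fin r) →* L) (u : L2 (Fin r × L)) :
    DerA φ (fun g => E φ g u) := by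
  intro g h
  have h1 : E φ (g * h) = E φ g + (lm (φ g)).comp (E φ h) := by
    unfold E
    rw [map_mul, SemidirectProduct.mul_left, lf_right]
    rfl
  show E φ (g * h) u = _
  rw [h1]
  rfl

theorem der_one {φ : FreeGroup (Fin r) →* L} {δ : FreeGroup (Fin r) → L2 L} (h : DerA φ δ) :
    δ 1 = 0 := by
  have := h 1 1
  rw [mul_one, map_one, lm_one] at this
  simpa using this

theorem der_inv {φ : FreeGroup (Fin r) →* L} {δ : FreeGroup (Fin r) → L2 L} (h : DerA φ δ)
    (g : FreeGroup (Fin r)) : δ g⁻¹ = - lm (φ g)⁻¹ (δ g) := by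
  have := h g⁻¹ g
  rw [inv_mul_cancel, der_one h, map_inv] at this
  exact eq_neg_of_add_eq_zero_left this.symm

theorem der_unique {φ : FreeGroup (Fin r) →* L} {δ δ' : FreeGroup (Fin r) → L2 L}
    (h : DerA φ δ) (h' : DerA φ δ') (he : ∀ i, δ (FreeGroup.of i) = δ' (FreeGroup.of i)) :
    ∀ g, δ g = δ' g := by
  intro g
  induction g using FreeGroup.induction_on with
  | C1 => rw [der_one h, der_one h']
  | of i => exact he i
  | inv_of i _ => rw [der_inv h, der_inv h', he]
  | mul x y hx hy => rw [h, h', hx, hy]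

theorem inV_iff {m : ℕ} (φ : FreeGroup (Fin r) →* L) (w : Fin m → FreeGroup (Fin r))
    (u : L2 (Fin r × L)) : InV φ w u ↔
      (∑ i, (lm (φ (FreeGroup.of i))⁻¹ (co i u) - co i u)) = 0 ∧ ∀ l, E φ (w l) u = 0 := by
  unfold InV
  refine and_congr_right (fun _ => ?_)
  constructor
  · intro h l
    exact h (fun g => E φ g u) (E_der φ u) (fun i => by rw [E_of]) l
  · intro h δ hδ hi l
    rw [der_unique hδ (E_der φ u) (fun i => by rw [hi, E_of]) (w l), h l]

theorem lm_rm' (g h : L) (ξ : L2 L) : lm g (rm h ξ) = rm h (lm g ξ) := lm_rm g h ξ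

theorem co_rmX (t : L) (i : Fin r) (u : L2 (Fin r × L)) :
    co i (tr (rmX (Fin r) L t) u) = rm t (co i u) := by
  ext g
  rw [co_apply, rm_apply, co_apply, tr_apply]
  have h : (Equiv.symm ((rmX (Fin r) L) t)) (i, g) = (i, g * t) := by
    rw [Equiv.symm_apply_eq]
    show (i, g) = (i, g * t * t⁻¹)
    rw [mul_inv_cancel_right]
  rw [h]

theorem E_rm (φ : FreeGroup (Fin r) →* L) (t : L) (u : L2 (Fin r × L)) (g : FreeGroup (Fin r)) :
    E φ g (tr (rmX (Fin r) L t) u) = rm t (E φ g u) := by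
  refine der_unique (δ := fun g => E φ g (tr (rmX (Fin r) L t) u))
    (δ' := fun g => rm t (E φ g u)) (E_der φ _) ?_ ?_ g
  · intro g h
    show rm t (E φ (g * h) u) = rm t (E φ g u) + lm (φ g) (rm t (E φ h u))
    have h1 : E φ (g * h) u = E φ g u + lm (φ g) (E φ h u) := E_der φ u g h
    rw [h1, map_add, lm_rm']
  · intro i
    show E φ (FreeGroup.of i) _ = rm t (E φ (FreeGroup.of i) u)
    rw [E_of, co_rmX]

/-- The closed subspace. -/
noncomputable def Wsp {m : ℕ} (φ : FreeGroup (Fin r) →* L) (w : Fin m → FreeGroup (Fin r)) :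
    Submodule ℝ (L2 (Fin r × L)) :=
  LinearMap.ker ((∑ i, ((lm (φ (FreeGroup.of i))⁻¹).comp (co i) - co i) : Op r L) :
    L2 (Fin r × L) →ₗ[ℝ] L2 L) ⊓ ⨅ l, LinearMap.ker ((E φ (w l)) : L2 (Fin r × L) →ₗ[ℝ] L2 L)

theorem mem_Wsp {m : ℕ} (φ : FreeGroup (Fin r) →* L) (w : Fin m → FreeGroup (Fin r))
    (u : L2 (Fin r × L)) : u ∈ Wsp φ w ↔ InV φ w u := by
  rw [inV_iff]
  unfold Wsp
  rw [Submodule.mem_inf, Submodule.mem_iInf, LinearMap.mem_ker]
  simp only [LinearMap.mem_ker]
  refine and_congr ?_ Iff.rfl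
  have : ((∑ i, ((lm (φ (FreeGroup.of i))⁻¹).comp (co i) - co i) : Op r L) :
    L2 (Fin r × L) →ₗ[ℝ] L2 L) u = ∑ i, (lm (φ (FreeGroup.of i))⁻¹ (co i u) - co i u) := by
    rw [ContinuousLinearMap.coe_coe, ContinuousLinearMap.sum_apply]
    rfl
  rw [this]

theorem closed_Wsp {m : ℕ} (φ : FreeGroup (Fin r) →* L) (w : Fin m → FreeGroup (Fin r)) :
    IsClosed (Wsp φ w : Set (L2 (Fin r × L))) := by
  unfold Wsp
  rw [Submodule.coe_inf, Submodule.coe_iInf]
  refine IsClosed.inter ?_ (isClosed_iInter (fun l => ?_))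
  · exact ContinuousLinearMap.isClosed_ker _
  · exact ContinuousLinearMap.isClosed_ker _

/-- VSUB. -/
theorem vsub (hP : ProjStatement) : VsubStatement := by
  intro r m w L _ φ
  obtain ⟨P, h1, h2, h3⟩ := hP.1 L (Fin r × L) (rmX (Fin r) L) (Wsp φ w) (closed_Wsp φ w) (by
    intro t u hu
    rw [mem_Wsp, inV_iff] at hu ⊢
    obtain ⟨hu1, hu2⟩ := hu
    refine ⟨?_, fun l => ?_⟩
    · have : ∀ i : Fin r, (lm (φ (FreeGroup.of i))⁻¹ (co i (tr (rmX (Fin r) L t) u)) -
          co i (tr (rmX (Fin r) L t) u)) =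
          rm t (lm (φ (FreeGroup.of i))⁻¹ (co i u) - co i u) := by
        intro i
        rw [co_rmX, lm_rm', map_sub]
      rw [Finset.sum_congr rfl (fun i _ => this i), ← map_sum, hu1, map_zero]
    · rw [E_rm, hu2, map_zero])
  refine ⟨P, h1, fun u => ?_, h3⟩
  rw [h2, mem_Wsp]

end Pool.Agent.Lib.MP_b1a3a4_al.MVS.LG.H14
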